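import Pool.Agent.Y19.QT.Gold

/-!
# Goldfeld's conjecture: the distribution of the analytic ranks of quadratic twists up to `O(log log X)`

`E : y² = x³ + a x + b` is an elliptic curve over `ℚ`, `S(X)` the number of the squarefree integers `d`
(positive or negative) with `|d| ≤ X`, and `N_r(X)` the number of those for which the twist
`E_d : y² = x³ + a d² x + b d³` has analytic rank `r`.  Goldfeld's conjecture says that
`N_0(X) ~ S(X) / 2` and `N_1(X) ~ S(X) / 2`.  We prove, without any hypothesis, for all `E` with
`j`-invariant `0` or `1728` and for all quadratic twists of `X₀(11)` and `X₀(14)`, and for every elliptic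
curve over `ℚ` whose quadratic twists are modular:

`N_r(X) + N_{r+1}(X) + … ≤ C X (log X)^A e^{-c r}` for all `r`, and for every `B` there is a `K` with

`N_0(X) + N_2(X) + N_4(X) + … (r ≤ K log log X) = S(X) / 2 + O(X / (log X)^B)`,
`N_1(X) + N_3(X) + N_5(X) + … (r ≤ K log log X) = S(X) / 2 + O(X / (log X)^B)`.

Method: a large sieve inequality for quadratic characters with a loss of a power of `log X` only, a
mollifier and Jensen's formula (modules `Pool.Agent.Y19.QT`), and the signs of the functional equations
of the twists of newforms and of theta series with complex multiplication (modules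
`Pool.Agent.Y763.QTP`).
-/

set_option autoImplicit false

namespace Pool.Agent.Results.MP_03e5d0_nt.AnalyticRankDistribution

open Pool.Agent.Y19.QT

theorem result : (∀ a b : ℤ, Fam a b → GoldfeldLaw a b) ∧
    ∀ a b : ℤ, 4 * a ^ 3 + 27 * b ^ 2 ≠ 0 → TwistsModular a b → GoldfeldLaw a b :=
  ⟨fun _ _ h => goldfeldLaw_fam h, fun _ _ hab h => goldfeldLaw_modular hab h⟩

end Pool.Agent.Results.MP_03e5d0_nt.AnalyticRankDistribution
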